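import Pool.Agent.H297.FT.Coin

/-!
# Where Vassiliev invariants of one order can fail to separate two families with full twists

`Pool.Agent.H891R2.Jones.Diagram` (starting library) contains the definitions `Diagram P` (oriented
link diagrams, planar or not), `Diagram.fPoly` (the normalised bracket `(-A^{-3})^{w(D)} ⟨D⟩`) and
`Outer m` (the part of an oriented diagram outside a box through which `m` strands run).
`Pool.Agent.H297.FT.Defs` adds: `Boxes m k` (`k` boxes, the box `e` on the consecutive strands
`off e, …, off e + size e - 1`; they may overlap), `family O B a` for `a ∈ ℤ^k` (the closed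
diagram with `a e` full twists on the `size e` strands of the box `e`, one box above the other),
`lk` (the number of the strands of a box directed upwards minus the number of those directed
downwards) and `wt` (the linear forms `w_s(a) = ∑ e, (s_e (s_e + 2) - 3 ℓ_e²) a_e` with
`s_e = n_e - 2 r_e ≥ 0`, `r : Ind B`).  `Pool.Agent.H297.FT.CoinDefs` adds: `ww` (the linear forms
on `ℤ^k × ℤ^k'`: the `w_s(a)` of the first and the `w'_s(a')` of the second family) and the subgroup
`Lam2 E` of the `(a, a')` on which the forms number `s` and `t` have equal values, for `(s, t) ∈ E`.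

Vassiliev invariants (starting library `Pool.Agent.H832R3.VJ.Defs`): `Dia` (an oriented diagram with
the finite set of its marked points), `Separated d X Y` (some integer valued Vassiliev invariant of
oriented links of order at most `d` has different values on `X` and `Y`).
`dia O B a` is the diagram `family O B a` as an element of `Dia`.
-/

set_option autoImplicit false

namespace Pool.Agent.Results.MP_31fd3b_gt.FullTwistCoincidences

open Pool.Agent.H891R2.Jones Pool.Agent.H297.FT Pool.Agent.H832R3.VJ

/-- Let `D(a)`, `a ∈ ℤ^k`, and `D'(a')`, `a' ∈ ℤ^k'`, be two families of diagrams obtained from two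
oriented link diagrams by putting `a_e` (`a'_e`) full twists into `k` (`k'`) boxes.  Then all of them
are closed oriented diagrams, and there are a number `d` and a finite union `Z` of cosets of
subgroups of `ℤ^k × ℤ^k'` of the form
`Λ(E) = {(a, a') | the forms number s and t have equal values at (a, a'), for all (s, t) ∈ E}`, where
the forms are the `w_s(a)` and the `w'_s(a')`, such that

* `D(a)` and `D'(a')` have the same normalised bracket for all `(a, a') ∈ Z`, and different
  normalised brackets for all `(a, a') ∉ Z`;
* `D(a)` and `D'(a')` are separated by Vassiliev invariants of order at most `d` for all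
  `(a, a') ∉ Z`. -/
theorem result {m k m' k' : ℕ} (hm : 0 < m) (hm' : 0 < m') (O : Outer m) (hO : O.close.IsClosed)
    (B : Boxes m k) (O' : Outer m') (hO' : O'.close.IsClosed) (B' : Boxes m' k') :
    (∀ a : Fin k → ℤ, (family O B a).IsClosed) ∧
    (∀ a' : Fin k' → ℤ, (family O' B' a').IsClosed) ∧
    ∃ (d : ℕ) (F : Finset (((Fin k → ℤ) × (Fin k' → ℤ)) ×
        Finset ((Ind B ⊕ Ind B') × (Ind B ⊕ Ind B')))),
      {p : (Fin k → ℤ) × (Fin k' → ℤ) | (family O B p.1).fPoly = (family O' B' p.2).fPoly} =
        ⋃ x ∈ F, {p | p - x.1 ∈ Lam2 O B O' B' x.2} ∧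
      ∀ p : (Fin k → ℤ) × (Fin k' → ℤ), p ∉ ⋃ x ∈ F, {p | p - x.1 ∈ Lam2 O B O' B' x.2} →
        Separated d (dia O B p.1) (dia O' B' p.2) := by
  obtain ⟨d, hd⟩ := uniform_pair hm hm' O B O' B'
  obtain ⟨F, hF⟩ := coin_structure hm hm' O B O' B'
  refine ⟨family_closed O hO B, family_closed O' hO' B', d, F, hF, ?_⟩
  intro p hp
  rw [← hF] at hp
  exact hd p.1 p.2 hp

end Pool.Agent.Results.MP_31fd3b_gt.FullTwistCoincidences
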