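import Pool.Agent.H297.FT.Pairs

/-!
# Vassiliev invariants of one order separate almost all pairs in families with several full twists

`Pool.Agent.H891R2.Jones.Diagram` (starting library) contains the definitions `Diagram P` (oriented
link diagrams, planar or not), `Diagram.fPoly` (the normalised bracket `(-A^{-3})^{w(D)} ⟨D⟩`) and
`Outer m` (the part of an oriented diagram outside a box through which `m` strands run).
`Pool.Agent.H297.FT.Defs` adds: `Boxes m k` (`k` boxes, the box `e` on the consecutive strands
`off e, …, off e + size e - 1`; they may overlap) and `family O B a` for `a ∈ ℤ^k` (the closed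
diagram with `a e` full twists on the `size e` strands of the box `e`, one box above the other).

Vassiliev invariants (starting library `Pool.Agent.H832R3.VJ.Defs`): `Dia` (an oriented diagram with
the finite set of its marked points), `Separated d X Y` (some integer valued Vassiliev invariant of
oriented links of order at most `d` has different values on `X` and `Y`).
`dia O B a` is the diagram `family O B a` as an element of `Dia`.
-/

set_option autoImplicit false

namespace Pool.Agent.Results.MP_31fd3b_gt.FullTwistPairs

open Pool.Agent.H891R2.Jones Pool.Agent.H297.FT Pool.Agent.H832R3.VJ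

open Classical in
/-- Let `D(a)`, `a ∈ ℤ^k`, and `D'(a')`, `a' ∈ ℤ^k'`, be two families of diagrams obtained from two
oriented link diagrams by putting `a_e` (`a'_e`) full twists into `k` (`k'`) boxes, the box `e` on
`n_e` (`n'_e`) strands.  Then all of them are closed oriented diagrams, and there is a number `d`
(independent of `a`, `a'`) such that

* all pairs `D(a)`, `D'(a')` with different normalised brackets are separated by Vassiliev
  invariants of order at most `d`;
* either the normalised brackets of all `D(a)` and all `D'(a')` are the same, or for all finite sets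
  `A_1, …, A_k, A'_1, …, A'_k'` of integers at most
  `(∑ e, (⌊n_e/2⌋ + 1) ∏_{e' ≠ e} |A_{e'}|) ∏ |A'_e| + ∏ |A_e| (∑ e, (⌊n'_e/2⌋ + 1) ∏_{e' ≠ e} |A'_{e'}|)`
  of the pairs `D(a)`, `D'(a')`, `a ∈ A_1 × ⋯ × A_k`, `a' ∈ A'_1 × ⋯ × A'_k'`, are not separated by
  Vassiliev invariants of order at most `d`. -/
theorem result {m k m' k' : ℕ} (hm : 0 < m) (hm' : 0 < m') (O : Outer m) (hO : O.close.IsClosed)
    (B : Boxes m k) (O' : Outer m') (hO' : O'.close.IsClosed) (B' : Boxes m' k') :
    (∀ a : Fin k → ℤ, (family O B a).IsClosed) ∧
    (∀ a' : Fin k' → ℤ, (family O' B' a').IsClosed) ∧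
    ∃ d : ℕ,
      (∀ a a', (family O B a).fPoly ≠ (family O' B' a').fPoly →
        Separated d (dia O B a) (dia O' B' a')) ∧
      ((∀ a a', (family O B a).fPoly = (family O' B' a').fPoly) ∨
        ∀ (A : Fin k → Finset ℤ) (A' : Fin k' → Finset ℤ),
          ((Fintype.piFinset A ×ˢ Fintype.piFinset A').filter (fun p =>
            ¬ Separated d (dia O B p.1) (dia O' B' p.2))).card ≤
            (∑ e, (B.size e / 2 + 1) * ∏ e' ∈ Finset.univ.erase e, (A e').card) *
                (∏ e, (A' e).card) +
              (∏ e, (A e).card) *
                (∑ e, (B'.size e / 2 + 1) * ∏ e' ∈ Finset.univ.erase e, (A' e').card)) := by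
  obtain ⟨d, hd1, hd2⟩ := pair_thm hm hm' O B O' B'
  refine ⟨family_closed O hO B, family_closed O' hO' B', d, hd1, ?_⟩
  rcases hd2 with h | h
  · exact Or.inl h
  · right
    intro A A'
    refine (h A A').trans (Nat.add_le_add (Nat.mul_le_mul_right _ ?_) (Nat.mul_le_mul_left _ ?_))
    · exact Finset.sum_le_sum fun e _ => Nat.mul_le_mul_right _ (mNum_single_le O B e)
    · exact Finset.sum_le_sum fun e _ => Nat.mul_le_mul_right _ (mNum_single_le O' B' e)

end Pool.Agent.Results.MP_31fd3b_gt.FullTwistPairs
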