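import Pool.Agent.H953R3.Q2.Fin2

/-!
# Vassiliev invariants of order two separate almost all twisted links from every given link

Diagrams: `Pool.Agent.H891R2.Jones.Diagram` (`Crossing`, `Diagram`: oriented link diagrams with
marked points; `Diagram.IsClosed`) and `Pool.Agent.H891R2.MT.Defs` (`Ribbon k`: a ribbon graph with
`k` edges, given by the rotation system on its `2 k` darts; `Ribbon.verts`, `Ribbon.comps`;
`Ribbon.Planar`: a connected plane graph; `Ribbon.link n`: the unoriented link diagram which is the
boundary of the surface made of one disc for every vertex and, for every edge `e`, a band with `n e`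
half twists, that is, a row of `|n e|` crossings; `Orients D U`: `D` is the unoriented diagram `U`
with directions).

`Pool.Agent.H953R3.Q2.Fin2`: `Balanced M F A`: for every edge `e ∈ F` the set `A e` contains either
no even numbers or at least `M`, and either no odd numbers or at least `M`.

Vassiliev invariants: `Pool.Agent.H832R3.VJ.Defs` (`Dia`: an oriented diagram with the finite set of
its marked points; `Move`: relabelling, subdivision of strands and the Reidemeister moves; `sing`:
extension to diagrams with double points by the Vassiliev skein relation; `IsVassiliev n v`: `v` is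
an invariant of oriented links of order at most `n`; `Separated d X Y`: some integer valued
Vassiliev invariant of order at most `d` has different values on `X` and `Y`).
-/

set_option autoImplicit false

namespace Pool.Agent.Results.MP_31fd3b_gt.OrderTwo

open Finset Pool.Agent.H891R2.Jones Pool.Agent.H891R2.MT Pool.Agent.H832R3.VJ Pool.Agent.H953R3.Q2

open Classical in
/-- Let `Γ` be a connected plane graph with `k` edges which is not a tree (`verts ≤ k`), and let
`D(n)`, `n ∈ ℤ^k`, be the link diagram with `|n e|` crossings on the edge `e`. Let `F` be a set of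
edges such that the other edges form a forest, and let `A e ⊂ ℤ` be finite sets such that, for
`e ∈ F`, the even (odd) elements of `A e` are none or at least `M`.

* For every oriented link `X`: among the links `D(n)`, `n ∈ ∏ A e`, the proportion of those which,
  for some directions, are not separated from `X` by the Vassiliev invariants of order at most `2`
  is at most `2 / M`.
* Let `Γ'` be another ribbon graph, and let `A' e` be arbitrary finite sets. Among the pairs
  `(D(n), D'(n'))`, `n ∈ ∏ A e`, `n' ∈ ∏ A' e`, the proportion of those which, for some directions,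
  are not separated by the Vassiliev invariants of order at most `2` is at most `2 / M`.
* For every oriented link `X`, at most `(2 / N) (2 N + 1) ^ k` of the `(2 N + 1) ^ k` links `D(n)`
  with `|n e| ≤ N` for all `e` are, for some directions, not separated from `X` by the Vassiliev
  invariants of order at most `2`. -/
theorem result (k : ℕ) (Γ : Ribbon k) (hΓ : Γ.Planar) (hk : Γ.verts ≤ k) :
    (∀ (F : Finset (Fin k)), Fᶜ.card + Γ.comps Fᶜ = Γ.verts → 
      ∀ (M : ℕ) (A : Fin k → Finset ℤ), Balanced M F A →
      (∀ X : Dia, M * #{n ∈ Fintype.piFinset A | ∃ D : Diagram (Ribbon.Pt n),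
          Orients D (Γ.link n) ∧ D.IsClosed ∧ ¬ Separated 2 ⟨_, inferInstance, D⟩ X} ≤ 
        2 * ∏ e, (A e).card) ∧
      (∀ (k' : ℕ) (Γ' : Ribbon k') (A' : Fin k' → Finset ℤ), 0 < k' →
        M * #{p ∈ Fintype.piFinset A ×ˢ Fintype.piFinset A' | 
          ∃ (D : Diagram (Ribbon.Pt p.1)) (D' : Diagram (Ribbon.Pt p.2)), 
            Orients D (Γ.link p.1) ∧ D.IsClosed ∧ Orients D' (Γ'.link p.2) ∧ D'.IsClosed ∧ 
            ¬ Separated 2 ⟨_, inferInstance, D⟩ ⟨_, inferInstance, D'⟩} ≤ 
        2 * ((∏ e, (A e).card) * ∏ e, (A' e).card))) ∧
    ∀ (N : ℕ) (X : Dia), N * {n : Fin k → ℤ | (∀ e, |n e| ≤ N) ∧ ∃ D : Diagram (Ribbon.Pt n),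
        Orients D (Γ.link n) ∧ D.IsClosed ∧ 
        ¬ Separated 2 ⟨_, inferInstance, D⟩ X}.ncard ≤ 2 * (2 * N + 1) ^ k := by
  exact ⟨fun F hF M A hA => ⟨fun X => count_sep Γ hΓ hk F hF X M A hA, 
    fun k' Γ' A' hk' => count_pairs Γ hΓ hk F hF Γ' hk' M A hA A'⟩, 
    fun N X => count_cube Γ _ N fun A hA => count_sep Γ hΓ hk Finset.univ (empty_forest Γ) X N A hA⟩

end Pool.Agent.Results.MP_31fd3b_gt.OrderTwo
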